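import Pool.Agent.Helper877_Fin.Fin3

/-!
# The number of branching points of a Steiner tree in the half-radius ball is bounded

`N_2 ≤ 10` in the plane, and `N_d` is finite for every `d ≥ 3`, with an explicit upper bound.
-/

set_option autoImplicit false

open scoped MeasureTheory ENNReal
open MeasureTheory Set

namespace Pool.Agent.Results.MP_d7b7f8_co.FiniteCount

/-- `S` is a Steiner tree for the set `A` of terminals: a compact connected set that contains `A`
and minimises `ℋ¹` among all compact connected sets containing `A`. -/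
def IsSteinerTree {d : ℕ} (A S : Set (EuclideanSpace ℝ (Fin d))) : Prop :=
  IsCompact S ∧ IsConnected S ∧ A ⊆ S ∧
    ∀ T : Set (EuclideanSpace ℝ (Fin d)), IsCompact T → IsConnected T → A ⊆ T → μH[1] S ≤ μH[1] T

/-- `p` is a branching point of `S`: a point of `S` outside `A` such that in some ball around `p`
the set `S` is the union of at least three segments (radii) from `p` in different unit
directions `u`. -/
def IsBranching {d : ℕ} (A S : Set (EuclideanSpace ℝ (Fin d))) (p : EuclideanSpace ℝ (Fin d)) :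
    Prop :=
  p ∈ S \ A ∧ ∃ ρ : ℝ, 0 < ρ ∧ ∃ F : Finset (EuclideanSpace ℝ (Fin d)), 3 ≤ F.card ∧
    (∀ u ∈ F, ‖u‖ = 1) ∧
    S ∩ Metric.ball p ρ = {x | ∃ u ∈ F, ∃ t : ℝ, 0 ≤ t ∧ x = p + t • u} ∩ Metric.ball p ρ

/-- `N_d`: the supremum of the number of branching points of `S` in `B_{1/2}(0)` over all finite
subsets `A` of the unit sphere and all Steiner trees `S` for `A`. -/
noncomputable def N (d : ℕ) : ℕ∞ :=
  sSup {n | ∃ A S : Set (EuclideanSpace ℝ (Fin d)), A.Finite ∧ A ⊆ Metric.sphere 0 1 ∧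
    IsSteinerTree A S ∧ n = Set.encard {p | p ∈ Metric.ball 0 (1 / 2) ∧ IsBranching A S p}}

/-- `N_2 ≤ 10`, and for every `d ≥ 3` the number `N_d` is finite, at most
`8 (3^d + 2 d^2 5^(d-1)) 2^((d-2)(2d+2))`. -/
theorem result : N 2 ≤ 10 ∧ ∀ d : ℕ, 3 ≤ d →
    N d ≤ ((8 * (3 ^ d + 2 * d ^ 2 * 5 ^ (d - 1)) * 2 ^ ((d - 2) * (2 * d + 2)) : ℕ) : ℕ∞) := by
  -- preparation common to all dimensions
  have prep : ∀ (d : ℕ) (A S : Set (EuclideanSpace ℝ (Fin d))), A.Finite → A ⊆ Metric.sphere 0 1 →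
      IsSteinerTree A S → IsClosed A ∧ IsClosed S ∧ IsConnected S ∧ IsPreconnected (S ∪ A) ∧
      μH[1] S ≠ ⊤ ∧ (∀ T : Set (EuclideanSpace ℝ (Fin d)), IsClosed T → IsConnected (T ∪ A) →
        S \ Metric.ball 0 1 ⊆ T → μH[1] S ≤ μH[1] T) ∧ A ∩ Metric.ball 0 1 = ∅ := by
    rintro d A S hAf hAs ⟨hSc, hSconn, hAS, hmin⟩
    have hfin : μH[1] S ≠ ⊤ := by
      set T : Set (EuclideanSpace ℝ (Fin d)) := {0} ∪ ⋃ a ∈ A, segment ℝ 0 a with hT
      have hTc : IsCompact T := by
        refine isCompact_singleton.union (hAf.isCompact_biUnion fun a _ => ?_)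
        rw [segment_eq_image_lineMap]
        exact isCompact_Icc.image AffineMap.lineMap_continuous
      have hTconn : IsConnected T := by
        refine ⟨⟨0, Or.inl rfl⟩, isPreconnected_of_forall 0 ?_⟩
        rintro z (hz | hz)
        · exact ⟨{0}, subset_union_left, rfl, hz, isPreconnected_singleton⟩
        · obtain ⟨a, ha, hz⟩ := mem_iUnion₂.mp hz
          refine ⟨segment ℝ 0 a, ?_, left_mem_segment ℝ _ _, hz, (convex_segment _ _).isPreconnected⟩
          exact (subset_biUnion_of_mem (u := fun a => segment ℝ (0 : EuclideanSpace ℝ (Fin d)) a)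
            ha).trans subset_union_right
      have h1 := hmin T hTc hTconn fun a ha =>
        Or.inr (mem_iUnion₂.mpr ⟨a, ha, right_mem_segment ℝ _ _⟩)
      refine ne_top_of_le_ne_top ?_ (h1.trans (measure_union_le _ _))
      rw [Pool.Agent.R154.Steiner.noAtom, zero_add]
      refine ne_top_of_le_ne_top ?_ (measure_biUnion_le _ hAf.countable _)
      have := hAf.fintype
      rw [tsum_fintype]
      refine ENNReal.sum_ne_top.mpr fun a _ => ?_
      rw [hausdorffMeasure_segment]
      exact edist_ne_top _ _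
    have hAb : A ∩ Metric.ball 0 1 = ∅ := by
      rw [eq_empty_iff_forall_notMem]
      rintro z ⟨hz1, hz2⟩
      have h1 := hAs hz1
      rw [Metric.mem_sphere] at h1
      rw [Metric.mem_ball, h1] at hz2
      exact lt_irrefl _ hz2
    have hSA : S ∪ A = S := union_eq_left.mpr hAS
    refine ⟨hAf.isClosed, hSc.isClosed, hSconn, by rw [hSA]; exact hSconn.isPreconnected, hfin, ?_,
      hAb⟩
    intro T hTc hTA hST
    by_cases hTf : μH[1] T = ⊤
    · rw [hTf]; exact le_top
    have hAT : A ⊆ T := by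
      intro a ha
      refine hST ⟨hAS ha, fun h => ?_⟩
      have : a ∈ A ∩ Metric.ball 0 1 := ⟨ha, h⟩
      rw [hAb] at this
      exact this
    rw [union_eq_left.mpr hAT] at hTA
    exact hmin T (Pool.Agent.R154.Steiner.compact_of_finite hTc hTA.isPreconnected hTf) hTA hAT
  constructor
  · refine sSup_le ?_
    rintro _ ⟨A, S, hAf, hAs, hst, rfl⟩
    obtain ⟨h1, h2, h3, h4, h5, h6, h7⟩ := prep 2 A S hAf hAs hst
    have h := Pool.Agent.Helper877_Fin.br_plane h1 h2 h3 h4 h5 one_pos h6 h7 (t := 1 / 2) (M := 12)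
      (by norm_num) (by push_cast; linarith [Real.pi_lt_d2])
    rw [mul_one] at h
    exact_mod_cast h
  · intro d hd
    refine sSup_le ?_
    rintro _ ⟨A, S, hAf, hAs, hst, rfl⟩
    obtain ⟨h1, h2, h3, h4, h5, h6, h7⟩ := prep d A S hAf hAs hst
    have hsd : Real.sqrt d ≤ d := by
      have h1 : (1:ℝ) ≤ d := by
        have : 1 ≤ d := by omega
        exact_mod_cast this
      rw [Real.sqrt_le_left (by linarith)]
      nlinarith
    have hsd2 : Real.sqrt d ≤ 2 ^ d := by
      refine hsd.trans ?_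
      have : d ≤ 2 ^ d := Nat.lt_two_pow_self.le
      exact_mod_cast this
    have hCd : Pool.Agent.Helper877_Fin.Cd d ≤ 3 ^ d + 2 * d ^ 2 * 5 ^ (d - 1) := by
      unfold Pool.Agent.Helper877_Fin.Cd
      have h5 : (0:ℝ) ≤ 2 * d * 5 ^ (d - 1) := by positivity
      nlinarith [mul_le_mul_of_nonneg_left hsd h5]
    have h := Pool.Agent.Helper877_Fin.br_bound3 hd h1 h2 h3 h4 h5 one_pos h6 h7 (t := 1 / 2)
      (J := 2 * d + 2)
      (M := 8 * (3 ^ d + 2 * d ^ 2 * 5 ^ (d - 1)) * 2 ^ ((d - 2) * (2 * d + 2)))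
      (by norm_num) (by norm_num) (by
        have h8 : (2:ℝ) ^ (2 * d + 2) * (1 - 1 / 2) = 2 ^ d * 2 ^ (d + 1) := by
          rw [← pow_add, show 2 * d + 2 = (d + (d + 1)) + 1 by omega, pow_succ]; ring
        rw [h8]
        exact mul_le_mul_of_nonneg_right hsd2 (by positivity)) (by
        push_cast
        rw [← pow_mul]
        have h9 : (0:ℝ) < 2 ^ ((d - 2) * (2 * d + 2)) := by positivity
        have h10 := mul_le_mul_of_nonneg_right hCd h9.le
        nlinarith)
    rw [mul_one] at h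
    refine h.trans ?_
    have h11 : (8 * (3 ^ d + 2 * d ^ 2 * 5 ^ (d - 1)) * 2 ^ ((d - 2) * (2 * d + 2)) - 2 : ℕ) ≤
        8 * (3 ^ d + 2 * d ^ 2 * 5 ^ (d - 1)) * 2 ^ ((d - 2) * (2 * d + 2)) := Nat.sub_le _ _
    exact_mod_cast h11

end Pool.Agent.Results.MP_d7b7f8_co.FiniteCount
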